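import Pool.Agent.Helper76.ND.StC

set_option autoImplicit false

/-! Project ND (MP_77ff3d_nt), module Ru: induction over blocks. -/

noncomputable section

namespace Pool.Agent.Helper41.ND

open Pool.Agent.Helper76.ND Finset

theorem conv_Ru (hCv : StCv) (K θ n : ℕ) (G : ℕ → ℝ) (hG : ∀ B, 0 ≤ G B) :
    ∑ b ∈ (Icc 3 K).filter (fun b => b ≤ θ),
      P3 b * ∑ B ∈ range (θ - b + 1), qs n B * G (b + B) ≤
      ∑ B ∈ range (θ + 1), qs (3 + n) B * G B := by
  obtain ⟨-, h2, h3, -⟩ := hCv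
  have e1 : ∑ B ∈ range (θ + 1), qs (3 + n) B * G B =
      ∑ b ∈ range (θ + 1), ∑ B ∈ range (θ + 1 - b), qs 3 b * qs n B * G (b + B) := by
    rw [← Finset.sum_range_diag_flip (θ + 1) (fun b B => qs 3 b * qs n B * G (b + B))]
    refine sum_congr rfl fun B' _ => ?_
    rw [h2, sum_mul]
    refine sum_congr rfl fun s hs => ?_
    rw [mem_range] at hs
    rw [show s + (B' - s) = B' by omega]
  rw [e1]
  have e2 : ∀ b ∈ (Icc 3 K).filter (fun b => b ≤ θ),
      P3 b * ∑ B ∈ range (θ - b + 1), qs n B * G (b + B) =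
        ∑ B ∈ range (θ + 1 - b), qs 3 b * qs n B * G (b + B) := by
    intro b hb
    rw [mem_filter, mem_Icc] at hb
    rw [h3 b (by omega), mul_sum, show θ - b + 1 = θ + 1 - b by omega]
    exact sum_congr rfl fun B _ => by ring
  rw [sum_congr rfl e2]
  refine sum_le_sum_of_subset_of_nonneg ?_ ?_
  · intro b hb
    rw [mem_filter] at hb
    rw [mem_range]
    omega
  · intro b _ _
    exact sum_nonneg fun B _ => mul_nonneg (mul_nonneg (qs_nonneg _ _) (qs_nonneg _ _)) (hG _)

theorem sh_sh (j B b : ℕ) (X : ℕ → ℝ) : sh j B (sh 1 b X) = sh (j + 1) (b + B) X := by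
  funext a
  unfold sh
  rw [show b + B + a = b + (B + a) by ring]
  ring

theorem sh_zero (X : ℕ → ℝ) : sh 0 0 X = X := by
  funext a
  simp [sh]

theorem hRu (hPb : StPb) (hCv : StCv) : StRu := by
  obtain ⟨hfb, -, hP0, hP1, -, -, -, -⟩ := hPb
  intro K k J
  induction J generalizing k with
  | zero =>
    intro θ X _
    have h1 : ∑ B ∈ range (θ + 1), qs (3 * 0) B = 1 := by
      rw [sum_range_succ']
      simp [qs]
    rw [h1]
    simpa using hP1 K k X
  | succ J ih =>
    intro θ X hJ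
    obtain ⟨k', rfl⟩ : ∃ k', k = k' + 1 := ⟨k - 1, by omega⟩
    have hG0 : ∀ j B, 0 ≤ ∑ b ∈ (Icc 3 K).filter (fun b => θ < B + b),
        P3 b * (fb b (sh j B X) * Psi K (k' + 1 - j - 1) (sh (j + 1) (B + b) X)) := fun j B =>
      sum_nonneg fun b _ => mul_nonneg (P3_nonneg b) (mul_nonneg (fb_nonneg _ _) (hP0 _ _ _))
    obtain ⟨G, hG⟩ : ∃ G : ℕ → ℕ → ℝ, ∀ j B, G j B =
        ∑ b ∈ (Icc 3 K).filter (fun b => θ < B + b),
          P3 b * (fb b (sh j B X) * Psi K (k' + 1 - j - 1) (sh (j + 1) (B + b) X)) :=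
      ⟨_, fun _ _ => rfl⟩
    simp only [← hG] at hG0 ⊢
    -- the right hand side
    have hR : ∑ j ∈ range (J + 1), ∑ B ∈ range (θ + 1), qs (3 * j) B * G j B =
        ∑ j ∈ range J, ∑ B ∈ range (θ + 1), qs (3 + 3 * j) B * G (j + 1) B + G 0 0 := by
      rw [sum_range_succ']
      congr 1
      · refine sum_congr rfl fun j _ => sum_congr rfl fun B _ => ?_
        rw [show 3 * (j + 1) = 3 + 3 * j by ring]
      · rw [sum_range_succ']
        simp [qs]
    rw [hR]
    -- the left hand side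
    have hL : Psi K (k' + 1) X = ∑ b ∈ Icc 3 K, P3 b * fb b X * Psi K k' (sh 1 b X) := by
      rw [Psi]
      refine sum_congr rfl fun b _ => ?_
      have h1 : (fun a => 27 * X (b + a)) = sh 1 b X := by
        funext a
        simp [sh]
      rw [h1]
    rw [hL, ← sum_filter_add_sum_filter_not (Icc 3 K) (fun b => b ≤ θ)]
    have h2 : ∑ b ∈ (Icc 3 K).filter (fun b => ¬ b ≤ θ), P3 b * fb b X * Psi K k' (sh 1 b X) =
        G 0 0 := by
      rw [hG]
      refine sum_congr ?_ fun b _ => ?_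
      · ext b
        simp only [mem_filter, zero_add, not_le]
      · rw [sh_zero, zero_add, zero_add]
        simp only [Nat.sub_zero, Nat.add_sub_cancel]
        ring
    rw [h2]
    have h3 : ∑ b ∈ (Icc 3 K).filter (fun b => b ≤ θ), P3 b * fb b X * Psi K k' (sh 1 b X) ≤
        ∑ b ∈ (Icc 3 K).filter (fun b => b ≤ θ), P3 b *
          (∑ j ∈ range J, ∑ B ∈ range (θ - b + 1), qs (3 * j) B * G (j + 1) (b + B) +
            ∑ B ∈ range (θ - b + 1), qs (3 * J) B) := by
      refine sum_le_sum fun b hb => ?_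
      rw [mem_filter, mem_Icc] at hb
      rw [mul_assoc]
      refine mul_le_mul_of_nonneg_left ?_ (P3_nonneg b)
      have h4 : fb b X * Psi K k' (sh 1 b X) ≤ Psi K k' (sh 1 b X) := by
        have := mul_le_mul_of_nonneg_right (hfb b X) (hP0 K k' (sh 1 b X))
        linarith
      refine h4.trans ((ih k' (θ - b) (sh 1 b X) (by omega)).trans (le_of_eq ?_))
      congr 1
      refine sum_congr rfl fun j _ => sum_congr rfl fun B hB => ?_
      rw [mem_range] at hB
      congr 1
      rw [hG]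
      refine sum_congr ?_ fun b' _ => ?_
      · ext b'
        simp only [mem_filter]
        constructor
        · rintro ⟨h5, h6⟩; exact ⟨h5, by omega⟩
        · rintro ⟨h5, h6⟩; exact ⟨h5, by omega⟩
      · rw [sh_sh, sh_sh, show b + (B + b') = b + B + b' by ring,
          show k' + 1 - (j + 1) - 1 = k' - j - 1 by omega]
    have h5 : ∑ b ∈ (Icc 3 K).filter (fun b => b ≤ θ), P3 b *
          (∑ j ∈ range J, ∑ B ∈ range (θ - b + 1), qs (3 * j) B * G (j + 1) (b + B) +
            ∑ B ∈ range (θ - b + 1), qs (3 * J) B) =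
        ∑ j ∈ range J, ∑ b ∈ (Icc 3 K).filter (fun b => b ≤ θ), P3 b *
          ∑ B ∈ range (θ - b + 1), qs (3 * j) B * G (j + 1) (b + B) +
        ∑ b ∈ (Icc 3 K).filter (fun b => b ≤ θ), P3 b *
          ∑ B ∈ range (θ - b + 1), qs (3 * J) B * 1 := by
      rw [sum_comm, ← sum_add_distrib]
      refine sum_congr rfl fun b _ => ?_
      rw [mul_add, mul_sum]
      simp only [mul_one]
    have h6 : ∀ j ∈ range J, ∑ b ∈ (Icc 3 K).filter (fun b => b ≤ θ), P3 b *
          ∑ B ∈ range (θ - b + 1), qs (3 * j) B * G (j + 1) (b + B) ≤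
        ∑ B ∈ range (θ + 1), qs (3 + 3 * j) B * G (j + 1) B := fun j _ =>
      conv_Ru hCv K θ (3 * j) (G (j + 1)) (hG0 (j + 1))
    have h7 := conv_Ru hCv K θ (3 * J) (fun _ => 1) (fun _ => zero_le_one)
    have h8 : ∑ B ∈ range (θ + 1), qs (3 + 3 * J) B * 1 =
        ∑ B ∈ range (θ + 1), qs (3 * (J + 1)) B := by
      refine sum_congr rfl fun B _ => ?_
      rw [show 3 * (J + 1) = 3 + 3 * J by ring, mul_one]
    have h9 := sum_le_sum h6

    linarith

end Pool.Agent.Helper41.ND
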